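import Pool.Agent.helper90.IV.Spec

/-! Row iv:GH2 -/

set_option autoImplicit false

open scoped BigOperators

namespace Pool.Agent.helper28.IV

open Pool.Agent.IV Pool.Agent.helper23.TH Pool.Agent.KS

noncomputable section

open Classical

/-- side of a branch vertex: `true` for the `w`s -/
def side {I : Type} (T : Tr I) (hub : I → Bool) (k : ℕ) : (Fin k × I) ⊕ T.R → Bool
  | .inl a => hub a.2
  | .inr r => !hub r.1

/-- first end of an edge -/
def en1 {I : Type} (T : Tr I) (k : ℕ) (j : Fin k) : T.Ed → (Fin k × I) ⊕ T.R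
  | .inl e => .inl (j, e.1.1)
  | .inr r => .inl (j, r.1)

/-- second end of an edge -/
def en2 {I : Type} (T : Tr I) (k : ℕ) (j : Fin k) : T.Ed → (Fin k × I) ⊕ T.R
  | .inl e => .inl (j, e.1.2)
  | .inr r => .inr r

theorem GH2 (hGR : GR_stmt) (hNL : NL_stmt) : GH2_stmt := by
  intro I _ T hub k hedge
  obtain ⟨nJ, hnJ⟩ : ∃ nJ : ℕ, nJ = Fintype.card ((Fin k × I) ⊕ T.R) := ⟨_, rfl⟩
  obtain ⟨nE, hnE⟩ : ∃ nE : ℕ, nE = Fintype.card (Fin k × T.Ed) := ⟨_, rfl⟩
  refine ⟨nJ + 1, 2 * (nJ + 2) + 2 * nE + 1, by omega, ?_⟩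
  intro V X _ A p q hPG a a' w z haa hw hz hwz haw haz ha'z hcoll hcd
  obtain ⟨hN1, _, _, _, _, _, hN7⟩ :=
    hNL V X A p q (Fintype.card V) 0 hPG (fun v => Finset.card_le_univ _)
  have hsym : ∀ u v, Co p q u v → Co p q v u := fun u v h => h.imp Eq.symm Eq.symm
  have hadj : ∀ u v, A u v → ¬ Co p q u v := by
    intro u v h hc
    rcases hc with hc | hc
    · exact hPG.ne1 _ _ h hc
    · exact hPG.ne2 _ _ h hc
  obtain ⟨ix, hix⟩ : ∃ ix : (Fin k × I) ⊕ T.R → Fin (nJ + 1), Function.Injective ix := by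
    subst hnJ
    exact ⟨fun s => (Fintype.equivFin _ s).castSucc, fun s t h =>
      (Fintype.equivFin _).injective (Fin.castSucc_injective _ h)⟩
  obtain ⟨F, hF⟩ : ∃ F : (Fin k × I) ⊕ T.R → V, F = fun s =>
    if side T hub k s = true then w (ix s) else z (ix s) := ⟨_, rfl⟩
  have hFt : ∀ s, side T hub k s = true → F s = w (ix s) := by
    intro s hs; rw [hF]; simp [hs]
  have hFf : ∀ s, side T hub k s = false → F s = z (ix s) := by
    intro s hs; rw [hF]; simp [hs]
  have hcase : ∀ s, (side T hub k s = true ∧ F s = w (ix s)) ∨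
      (side T hub k s = false ∧ F s = z (ix s)) := by
    intro s
    cases hs : side T hub k s
    · exact Or.inr ⟨rfl, hFf s hs⟩
    · exact Or.inl ⟨rfl, hFt s hs⟩
  have hFA : ∀ s, A a (F s) := by
    intro s
    rcases hcase s with ⟨_, h⟩ | ⟨_, h⟩
    · rw [h]; exact haw _
    · rw [h]; exact haz _
  have hFinj : ∀ s t, s ≠ t → F s ≠ F t := by
    intro s t hst
    rcases hcase s with ⟨_, h⟩ | ⟨_, h⟩ <;> rcases hcase t with ⟨_, h'⟩ | ⟨_, h'⟩ <;> rw [h, h']
    · exact fun e => hst (hix (hw e))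
    · exact hwz _ _
    · exact fun e => hwz _ _ e.symm
    · exact fun e => hst (hix (hz e))
  have hFa' : ∀ s, ¬ Co p q a' (F s) := by
    intro s
    rcases hcase s with ⟨_, h⟩ | ⟨_, h⟩
    · rw [h]; exact hcoll _
    · rw [h]; exact hadj _ _ (ha'z _)
  obtain ⟨m, hm⟩ : ∃ m : Bool → V, m = fun b => if b = true then a else a' := ⟨_, rfl⟩
  have hmt : m true = a := by rw [hm]; simp
  have hmf : m false = a' := by rw [hm]; simp
  have hmm : ¬ Co p q a a' := by
    refine hN7 (z 0) a a' (hPG.symm _ _ (haz 0)) (hPG.symm _ _ (ha'z 0)) haa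
  have hmF : ∀ b s, ¬ Co p q (m b) (F s) := by
    intro b s
    cases b
    · rw [hmf]; exact hFa' s
    · rw [hmt]; exact hadj _ _ (hFA s)
  have hFF : ∀ s t, s ≠ t → ¬ Co p q (F s) (F t) := fun s t hst =>
    hN7 a _ _ (hFA s) (hFA t) (hFinj s t hst)
  -- the ends of an edge
  have hside : ∀ (j : Fin k) (e : T.Ed), side T hub k (en1 T k j e) ≠ side T hub k (en2 T k j e) := by
    intro j e
    rcases e with e | r
    · exact hedge _ _ e.2
    · simp only [en1, en2, side]
      cases hub r.1 <;> simp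
  have hcdE : ∀ (j : Fin k) (e : T.Ed),
      2 * (nJ + 2) + 2 * nE + 1 ≤ cd A (F (en1 T k j e)) (F (en2 T k j e)) := by
    intro j e
    have hs := hside j e
    rcases hcase (en1 T k j e) with ⟨h1, h⟩ | ⟨h1, h⟩ <;>
      rcases hcase (en2 T k j e) with ⟨h2, h'⟩ | ⟨h2, h'⟩
    · exact absurd (h1.trans h2.symm) hs
    · rw [h, h']; exact hcd _ _
    · rw [h, h']
      have : cd A (z (ix (en1 T k j e))) (w (ix (en2 T k j e))) =
          cd A (w (ix (en2 T k j e))) (z (ix (en1 T k j e))) := by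
        unfold cd
        refine congrArg Finset.card (Finset.filter_congr fun x _ => ?_)
        exact and_comm
      rw [this]; exact hcd _ _
    · exact absurd (h1.trans h2.symm) hs
  obtain ⟨Fv, hFv⟩ : ∃ Fv : ((Fin k × I) ⊕ T.R) ⊕ Bool → V, Fv = Sum.elim F m := ⟨_, rfl⟩
  obtain ⟨Y, hY⟩ : ∃ Y : Fin k × T.Ed → Finset V, Y = fun je => Finset.univ.filter fun x =>
    (A (F (en1 T k je.1 je.2)) x ∧ A (F (en2 T k je.1 je.2)) x) ∧ ∀ s, ¬ Co p q x (Fv s) := ⟨_, rfl⟩
  have hYm : ∀ je x, x ∈ Y je ↔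
      ((A (F (en1 T k je.1 je.2)) x ∧ A (F (en2 T k je.1 je.2)) x) ∧ ∀ s, ¬ Co p q x (Fv s)) := by
    intro je x; rw [hY]; simp
  have hcardS : Fintype.card (((Fin k × I) ⊕ T.R) ⊕ Bool) = nJ + 2 := by
    rw [Fintype.card_sum, ← hnJ, Fintype.card_bool]
  have hYc : ∀ je, 2 * nE < (Y je).card := by
    intro je
    have h1 := hcdE je.1 je.2
    have hsub : (Finset.univ.filter fun x => A (F (en1 T k je.1 je.2)) x ∧ A (F (en2 T k je.1 je.2)) x) ⊆
        Y je ∪ (Finset.univ : Finset (((Fin k × I) ⊕ T.R) ⊕ Bool)).biUnion fun s =>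
          Finset.univ.filter fun x => A (F (en1 T k je.1 je.2)) x ∧ Co p q x (Fv s) := by
      intro x hx
      rw [Finset.mem_filter] at hx
      by_cases hc : ∀ s, ¬ Co p q x (Fv s)
      · exact Finset.mem_union_left _ ((hYm je x).2 ⟨hx.2, hc⟩)
      · push Not at hc
        obtain ⟨s, hs⟩ := hc
        refine Finset.mem_union_right _ (Finset.mem_biUnion.2 ⟨s, Finset.mem_univ _, ?_⟩)
        rw [Finset.mem_filter]
        exact ⟨Finset.mem_univ _, hx.2.1, hs⟩
    have h2 : cd A (F (en1 T k je.1 je.2)) (F (en2 T k je.1 je.2)) ≤ (Y je).card + (nJ + 2) * 2 := by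
      unfold cd
      refine (Finset.card_le_card hsub).trans ((Finset.card_union_le _ _).trans ?_)
      refine Nat.add_le_add_left ?_ _
      refine (Finset.card_biUnion_le_card_mul _ _ 2 fun s _ => hN1 _ _).trans ?_
      rw [Finset.card_univ, hcardS]
    omega
  obtain ⟨f, hfY, hff⟩ := hGR (Fin k × T.Ed) V Y (Co p q) 2 hsym
    (by
      intro i j _ y _
      refine (Finset.card_le_card ?_).trans (hN1 (F (en1 T k i.1 i.2)) y)
      intro x hx
      rw [Finset.mem_filter] at hx
      rw [Finset.mem_filter]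
      exact ⟨Finset.mem_univ _, ((hYm i x).1 hx.1).1.1, hx.2⟩)
    (by intro i; rw [← hnE]; exact hYc i)
  refine ⟨fun j i => F (.inl (j, i)), fun r => F (.inr r), fun j e => f (j, e), m, ?_, ?_, ?_, ?_⟩
  · intro j e
    exact ((hYm _ _).1 (hfY (j, .inl e))).1
  · intro j r
    exact ((hYm _ _).1 (hfY (j, .inr r))).1
  · intro j i
    cases hi : hub i
    · rw [hmf]
      have : F (.inl (j, i)) = z (ix (.inl (j, i))) := hFf _ hi
      change A a' (F (.inl (j, i)))
      rw [this]; exact ha'z _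
    · rw [hmt]; exact hFA _
  · have hE1 : ∀ s : (Fin k × I) ⊕ T.R,
        Sum.elim (fun a : Fin k × I => F (.inl (a.1, a.2))) (fun r => F (.inr r)) s = F s := by
      rintro (s | s) <;> rfl
    have key : ∀ s t : ((Fin k × I) ⊕ T.R) ⊕ ((Fin k × T.Ed) ⊕ Bool), s ≠ t →
        ¬ Co p q (Sum.elim F (Sum.elim f m) s) (Sum.elim F (Sum.elim f m) t) := by
      rintro (s | s | s) (t | t | t) hst
      · exact hFF s t (fun e => hst (by rw [e]))
      · intro h
        have := ((hYm _ _).1 (hfY t)).2 (.inl s)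
        rw [hFv] at this
        exact this (hsym _ _ h)
      · intro h
        exact hmF t s (hsym _ _ h)
      · intro h
        have := ((hYm _ _).1 (hfY s)).2 (.inl t)
        rw [hFv] at this
        exact this h
      · exact hff s t (fun e => hst (by rw [e]))
      · intro h
        have := ((hYm _ _).1 (hfY s)).2 (.inr t)
        rw [hFv] at this
        exact this h
      · exact hmF s t
      · intro h
        have := ((hYm _ _).1 (hfY t)).2 (.inr s)
        rw [hFv] at this
        exact this (hsym _ _ h)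
      · intro h
        cases s <;> cases t
        · exact hst rfl
        · change Co p q (m false) (m true) at h
          rw [hmf, hmt] at h
          exact hmm (hsym _ _ h)
        · change Co p q (m true) (m false) at h
          rw [hmf, hmt] at h
          exact hmm h
        · exact hst rfl
    intro s t hst
    have := key s t hst
    have e1 : ∀ s : ((Fin k × I) ⊕ T.R) ⊕ ((Fin k × T.Ed) ⊕ Bool),
        Sum.elim (Sum.elim (fun a : Fin k × I => F (.inl (a.1, a.2))) (fun r => F (.inr r)))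
          (Sum.elim (fun a : Fin k × T.Ed => f (a.1, a.2)) m) s = Sum.elim F (Sum.elim f m) s := by
      rintro (s | s | s)
      · exact hE1 s
      · rfl
      · rfl
    simp only [e1]
    exact this

end

end Pool.Agent.helper28.IV
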