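import Pool.Agent.helper90.IV.Spec
import Pool.Agent.helper20.KS.LBK

/-! Row iv:LBI: lower bound, assembly -/

set_option autoImplicit false

open scoped BigOperators

namespace Pool.Agent.helper28.IV

open Pool.Agent.IV Pool.Agent.helper23.TH Pool.Agent.KS

/-- the power of the density -/
theorem LBI_pow {ρ K₁ N d : ℝ} (hρ : 3 ≤ ρ) (hN : 1 ≤ N)
    (hd : max 1 K₁ * N ^ ((1 + 2 * ρ - 1) / (2 * (1 + 2 * ρ))) ≤ d) :
    1 ≤ d ∧ K₁ * N ≤ d ^ (2 + 1 / ρ) := by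
  have hρ0 : 0 < ρ := by linarith
  have hN0 : 0 < N := by linarith
  have ha0 : 0 ≤ (1 + 2 * ρ - 1) / (2 * (1 + 2 * ρ)) := by
    apply div_nonneg <;> linarith
  have hNp : 1 ≤ N ^ ((1 + 2 * ρ - 1) / (2 * (1 + 2 * ρ))) := Real.one_le_rpow hN ha0
  have hM1 : 1 ≤ max 1 K₁ := le_max_left _ _
  have hM0 : 0 < max 1 K₁ := by linarith
  constructor
  · nlinarith
  · have he : 0 ≤ 2 + 1 / ρ := by positivity
    have he1 : 1 ≤ 2 + 1 / ρ := by
      have : 0 < 1 / ρ := by positivity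
      linarith
    have h1 : (max 1 K₁ * N ^ ((1 + 2 * ρ - 1) / (2 * (1 + 2 * ρ)))) ^ (2 + 1 / ρ) ≤ d ^ (2 + 1 / ρ) :=
      Real.rpow_le_rpow (by positivity) hd he
    have h2 : (max 1 K₁ * N ^ ((1 + 2 * ρ - 1) / (2 * (1 + 2 * ρ)))) ^ (2 + 1 / ρ) =
        (max 1 K₁) ^ (2 + 1 / ρ) * N := by
      rw [Real.mul_rpow hM0.le (by positivity), ← Real.rpow_mul hN0.le]
      have : (1 + 2 * ρ - 1) / (2 * (1 + 2 * ρ)) * (2 + 1 / ρ) = 1 := by
        field_simp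
        ring
      rw [this, Real.rpow_one]
    have h3 : max 1 K₁ ≤ (max 1 K₁) ^ (2 + 1 / ρ) := by
      calc max 1 K₁ = (max 1 K₁) ^ (1 : ℝ) := (Real.rpow_one _).symm
        _ ≤ _ := Real.rpow_le_rpow_of_exponent_le hM1 he1
    calc K₁ * N ≤ (max 1 K₁) ^ (2 + 1 / ρ) * N := by
          apply mul_le_mul_of_nonneg_right _ hN0.le
          exact (le_max_right _ _).trans h3
      _ ≤ d ^ (2 + 1 / ρ) := by rw [← h2]; exact h1

theorem LBI (hEC : EC_stmt) (hPT : PT_stmt) (hTR : TRK_stmt) (hMD : MD_stmt) (hGLA : GLA_stmt)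
    (hTK : TK2_stmt) : LBI_stmt := by
  intro s h pj ρ k hs hρ hk hhub hU
  have hs' : (4 : ℝ) ≤ s := by exact_mod_cast hs
  have hρ3 : 3 ≤ ρ := by linarith
  have ha0 : 0 < (1 + 2 * ρ - 1) / (2 * (1 + 2 * ρ)) := by
    apply div_pos <;> linarith
  have ha1 : (1 + 2 * ρ - 1) / (2 * (1 + 2 * ρ)) ≤ 1 := by
    rw [div_le_one (by linarith)]
    linarith
  obtain ⟨κ, hκ, hR⟩ := hMD ((1 + 2 * ρ - 1) / (2 * (1 + 2 * ρ))) ha0 ha1
  obtain ⟨K₁, hK₁, hG⟩ := hGLA s h pj ρ κ k hs hρ hκ hk hU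
  obtain ⟨C₁, hC₁, hR⟩ := hR (max 1 K₁) (by positivity)
  refine ⟨min (1 / 8) (1 / (128 * C₁)), by positivity, 2, ?_⟩
  intro n hn m χ hχ hT
  by_contra hcon
  rw [not_le] at hcon
  have hm : 0 < m := by
    have : Fin n := ⟨0, by omega⟩
    exact (χ this this).pos
  obtain ⟨h4, hnum⟩ := LBK_num (s := 1 + 2 * ρ) (C₁ := C₁) (by linarith)
    hC₁ hn hm (min_le_left _ _)
    (by
      calc min (1 / 8) (1 / (128 * C₁)) * (128 * C₁) ≤ 1 / (128 * C₁) * (128 * C₁) := by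
            gcongr; exact min_le_right _ _
        _ = 1 := by field_simp) hcon
  have hE := hEC.1 n m χ hχ hn h4
  obtain ⟨ω, hω⟩ := hPT (Fin n) (Fin m) χ
  have hω' : (∑ v, (dg (Ga χ) Finset.univ v : ℝ)) ≤
      16 * ∑ v, (dg (Gb χ ω) Finset.univ v : ℝ) := by
    exact_mod_cast hω
  have hcard : (Fintype.card (Fin n × Fin n) : ℝ) = (n : ℝ) * n := by
    rw [Fintype.card_prod, Fintype.card_fin]; push_cast; ring
  obtain ⟨U, d, hUn, hU1, hU2⟩ := hR (Fin n × Fin n) (Gb χ ω)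
    (fun u v h => LBK_Gb_symm hχ.symm u v h)
    (by rw [Fintype.card_prod, Fintype.card_fin]; positivity)
    (by rw [hcard]; linarith)
  have hdg : ∀ v : {x // x ∈ U},
      deg (fun a b : {x // x ∈ U} => Gb χ ω a.1 b.1) v = dg (Gb χ ω) U v.1 := by
    intro v
    unfold deg dg
    exact LBK_card_sub U (fun w => Gb χ ω v.1 w)
  have hcU : (Fintype.card {x // x ∈ U} : ℝ) = U.card := by
    rw [Fintype.card_coe]
  have hcpos : (1 : ℝ) ≤ U.card := by exact_mod_cast hUn.card_pos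
  obtain ⟨hd1, hdK⟩ := LBI_pow hρ3 hcpos hU1
  have hL : LSub (cat s h pj) chub (fun u w : {x // x ∈ U} => Gb χ ω u.1 w.1) (fun u => u.1.1)
      (fun u => u.1.2) k :=
    hG {x // x ∈ U} (Fin n) (fun a b => Gb χ ω a.1 b.1) (fun u => u.1.1) (fun u => u.1.2) d
      (hTR (Fin n) (Fin m) χ ω U hχ).1 (by rw [Fintype.card_coe]; exact hUn.card_pos) hd1
      (fun v => by rw [hdg v]; exact (hU2 v.1 v.2).1)
      (fun v => by rw [hdg v]; exact (hU2 v.1 v.2).2)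
      (by rw [hcU]; exact hdK)
  refine hT (hTK (CI h pj) (cat s h pj) chub k (Fin n) (Fin m) χ ω U hχ hk ?_ hL)
  intro b
  cases b
  · exact hhub
  · exact ⟨.inl 0, rfl⟩

end Pool.Agent.helper28.IV
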