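import Pool.Agent.helper90.IV.Spec

/-!
# MP_26dbae_co: row TRF, transfer from the ghosts `gh` to the ghosts `gh'`
-/

set_option autoImplicit false

open scoped BigOperators

namespace Pool.Agent.helper28.IV

open Pool.Agent.IV Pool.Agent.helper23.TH Pool.Agent.KS

noncomputable section

open Classical

variable {I : Type} [Fintype I] {T : Tr I} {V K : Type} [Fintype V]

/-- new values of the slots -/
def trY28 (gh gh' : T.R → Option I) (x : I → V) (y : T.R → V) : T.R → V :=
  fun r => if gh r = none then (gh' r).elim (y r) x else y r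

omit [Fintype I] [Fintype V] in
theorem trY_new28 {gh gh' : T.R → Option I} {x : I → V} {y : T.R → V} {r : T.R} {w : I}
    (h : gh r = none) (h' : gh' r = some w) : trY28 gh gh' x y r = x w := by
  unfold trY28
  rw [if_pos h, h']
  rfl

omit [Fintype I] [Fintype V] in
theorem trY_live28 {gh gh' : T.R → Option I} {x : I → V} {y : T.R → V} {r : T.R}
    (h' : gh' r = none) : trY28 gh gh' x y r = y r := by
  unfold trY28
  rw [h']
  split_ifs <;> rfl

omit [Fintype I] [Fintype V] in
theorem trY_old28 {gh gh' : T.R → Option I} {x : I → V} {y : T.R → V} {r : T.R}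
    (h : gh r ≠ none) : trY28 gh gh' x y r = y r := by
  unfold trY28
  rw [if_neg h]

omit [Fintype I] [Fintype V] in
theorem trY_not28 {gh gh' : T.R → Option I} {x : I → V} {y : T.R → V} {r : T.R}
    (h : ¬ (gh r = none ∧ gh' r ≠ none)) : trY28 gh gh' x y r = y r := by
  by_cases h1 : gh r = none
  · apply trY_live28
    by_contra h2
    exact h ⟨h1, h2⟩
  · exact trY_old28 h1

omit [Fintype I] [Fintype V] in
theorem adj_nb28 {A : V → V → Prop} {lam : Fin 2 → V → V → K} (hp : PrE A lam) {x : I → V}
    {y : T.R → V} (h : T.hom A x y) {i j : I} (hn : T.nb i j) : A (x i) (x j) := by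
  rcases hn with h1 | h1
  · exact h.1 i j h1
  · exact hp.symm _ _ (h.1 j i h1)

theorem Hm_map28 {A : V → V → Prop} {lam : Fin 2 → V → V → K} (hp : PrE A lam)
    {gh gh' : T.R → Option I} (hgv : GV T gh') (hgg : ∀ r w, gh r = some w → gh' r = some w)
    {f : (I → V) × (T.R → V)} (hf : f ∈ Hm T A gh) :
    (f.1, trY28 gh gh' f.1 f.2) ∈ Hm T A gh' := by
  unfold Hm at hf ⊢
  rw [Finset.mem_filter] at hf ⊢
  obtain ⟨_, hh, hg⟩ := hf
  refine ⟨Finset.mem_univ _, ⟨hh.1, ?_⟩, ?_⟩
  · intro r
    by_cases hn : gh r = none ∧ gh' r ≠ none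
    · obtain ⟨w, hw⟩ := Option.ne_none_iff_exists'.1 hn.2
      simp only
      rw [trY_new28 hn.1 hw]
      exact adj_nb28 hp hh (hgv r w hw)
    · simp only
      rw [trY_not28 hn]
      exact hh.2 r
  · intro r w hw
    simp only
    by_cases h1 : gh r = none
    · exact trY_new28 h1 hw
    · rw [trY_old28 h1]
      obtain ⟨w', hw'⟩ := Option.ne_none_iff_exists'.1 h1
      have := hgg r w' hw'
      rw [hw] at this
      have e : w = w' := Option.some.inj this
      rw [e]
      exact hg r w' hw'

/-- the fibre -/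
theorem fibre28 {A : V → V → Prop}
    {gh gh' : T.R → Option I} (hgg : ∀ r w, gh r = some w → gh' r = some w)
    {g : (I → V) × (T.R → V)} (hg : g ∈ Hm T A gh') :
    ((Hm T A gh).filter fun f => (f.1, trY28 gh gh' f.1 f.2) = g).card =
      ∏ r : T.R, (if gh r = none ∧ gh' r ≠ none then deg A (g.1 r.1) else 1) := by
  have e : ((Hm T A gh).filter fun f => (f.1, trY28 gh gh' f.1 f.2) = g) =
      (Fintype.piFinset (fun r : T.R => if gh r = none ∧ gh' r ≠ none then
        Finset.univ.filter (fun v => A (g.1 r.1) v) else {g.2 r})).map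
        ⟨fun y => (g.1, y), fun a b hab => (Prod.ext_iff.1 hab).2⟩ := by
    ext f
    unfold Hm at hg ⊢
    rw [Finset.mem_filter] at hg
    obtain ⟨_, hh, hgh⟩ := hg
    rw [Finset.mem_filter, Finset.mem_filter, Finset.mem_map]
    constructor
    · rintro ⟨⟨_, h1, h2⟩, h3⟩
      refine ⟨f.2, ?_, ?_⟩
      · rw [Fintype.mem_piFinset]
        intro r
        rw [← h3]
        by_cases hn : gh r = none ∧ gh' r ≠ none
        · rw [if_pos hn, Finset.mem_filter]
          exact ⟨Finset.mem_univ _, h1.2 r⟩
        · rw [if_neg hn, Finset.mem_singleton]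
          simp only
          rw [trY_not28 hn]
      · rw [← h3]
        rfl
    · rintro ⟨y, hy, rfl⟩
      rw [Fintype.mem_piFinset] at hy
      have hy1 : ∀ r, (gh r = none ∧ gh' r ≠ none) → A (g.1 r.1) (y r) := by
        intro r hn
        have := hy r
        rw [if_pos hn, Finset.mem_filter] at this
        exact this.2
      have hy2 : ∀ r, ¬ (gh r = none ∧ gh' r ≠ none) → y r = g.2 r := by
        intro r hn
        have := hy r
        rw [if_neg hn, Finset.mem_singleton] at this
        exact this
      refine ⟨⟨Finset.mem_univ _, ⟨hh.1, ?_⟩, ?_⟩, ?_⟩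
      · intro r
        by_cases hn : gh r = none ∧ gh' r ≠ none
        · exact hy1 r hn
        · simp only [Function.Embedding.coeFn_mk]
          rw [hy2 r hn]
          exact hh.2 r
      · intro r w hw
        simp only [Function.Embedding.coeFn_mk]
        rw [hy2 r (fun hn => by rw [hw] at hn; exact absurd hn.1 (by simp))]
        exact hgh r w (hgg r w hw)
      · simp only [Function.Embedding.coeFn_mk]
        apply Prod.ext
        · rfl
        · funext r
          simp only
          by_cases hn : gh r = none ∧ gh' r ≠ none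
          · obtain ⟨w, hw⟩ := Option.ne_none_iff_exists'.1 hn.2
            rw [trY_new28 hn.1 hw]
            exact (hgh r w hw).symm
          · rw [trY_not28 hn]
            exact hy2 r hn
  rw [e, Finset.card_map, Fintype.card_piFinset]
  apply Finset.prod_congr rfl
  intro r _
  by_cases hn : gh r = none ∧ gh' r ≠ none
  · rw [if_pos hn, if_pos hn]
    rfl
  · rw [if_neg hn, if_neg hn, Finset.card_singleton]

omit [Fintype I] [Fintype V] in
theorem col_eq28 (lam : Fin 2 → V → V → K) {gh gh' : T.R → Option I} (x z : I → V) (y : T.R → V)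
    (l : Fin 2) (e : T.Ed) (he : ∀ r, e = .inr r → ¬ (gh r = none ∧ gh' r ≠ none)) :
    T.col lam l z (trY28 gh gh' x y) e = T.col lam l z y e := by
  rcases e with e | r
  · rfl
  · show lam l (z r.1) (trY28 gh gh' x y r) = lam l (z r.1) (y r)
    rw [trY_not28 (he r rfl)]

omit [Fintype I] [Fintype V] in
theorem Nice28 {lam : Fin 2 → V → V → K} {gh gh' : T.R → Option I}
    (hgg : ∀ r w, gh r = some w → gh' r = some w) {x : I → V} {y : T.R → V}
    (h : Nice T lam gh x y) : Nice T lam gh' x (trY28 gh gh' x y) := by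
  have hlive : ∀ r, gh' r = none → gh r = none := by
    intro r hr
    by_contra hne
    obtain ⟨w, hw⟩ := Option.ne_none_iff_exists'.1 hne
    rw [hgg r w hw] at hr
    exact absurd hr (by simp)
  have hval : ∀ t, lvv T gh' t → Sum.elim x (trY28 gh gh' x y) t = Sum.elim x y t := by
    intro t ht
    rcases t with t | r
    · rfl
    · exact trY_live28 ht
  have hlv : ∀ t, lvv T gh' t → lvv T gh t := by
    intro t ht
    rcases t with t | r
    · trivial
    · exact hlive r ht
  have hle : ∀ e, lve T gh' e → lve T gh e := by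
    intro e he
    rcases e with e | r
    · trivial
    · exact hlive r he
  have hcol : ∀ l e, lve T gh' e →
      T.col lam l x (trY28 gh gh' x y) e = T.col lam l x y e := by
    intro l e he
    apply col_eq28
    rintro r rfl hn
    exact hn.2 he
  refine ⟨?_, ?_⟩
  · intro t t' ht ht' heq
    rw [hval t ht, hval t' ht'] at heq
    exact h.1 t t' (hlv t ht) (hlv t' ht') heq
  · intro l e e' he he' heq
    rw [hcol l e he, hcol l e' he'] at heq
    exact h.2 l e e' (hle e he) (hle e' he') heq

omit [Fintype V] in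
theorem tkW_eq28 (lam : Fin 2 → V → V → K) {gh gh' : T.R → Option I} {W : Finset I}
    (hW : ∀ r, gh r = none → gh' r ≠ none → r.1 ∉ W) (x z : I → V) (y : T.R → V) :
    tkW T lam W (trY28 gh gh' x y) z = tkW T lam W y z := by
  unfold tkW
  congr 1
  apply Finset.image_congr
  intro p hp
  rw [Finset.mem_coe, Finset.mem_filter] at hp
  simp only
  rw [col_eq28]
  rintro r hr hn
  have := hp.2
  rw [hr] at this
  exact hW r hn.1 hn.2 this

omit [Fintype V] in
theorem Rich28 {A : V → V → Prop} {lam : Fin 2 → V → V → K} (hp : PrE A lam)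
    {gh gh' : T.R → Option I} {W : Finset I} {P : ℕ} (hgv : GV T gh')
    (hgg : ∀ r w, gh r = some w → gh' r = some w)
    (hW : ∀ r, gh r = none → gh' r ≠ none → r.1 ∉ W) {x : I → V} {y : T.R → V}
    (hxy : T.hom A x y) (h : Rich T A lam gh W P x y) :
    Rich T A lam gh' W P x (trY28 gh gh' x y) := by
  obtain ⟨z, hz, hd⟩ := h
  refine ⟨z, ?_, ?_⟩
  · intro j
    obtain ⟨h1, h2, h3, h4, h5⟩ := hz j
    refine ⟨h1, ⟨h2.1, ?_⟩, h3, ?_, ?_⟩
    · intro r
      by_cases hn : gh r = none ∧ gh' r ≠ none
      · obtain ⟨w, hw⟩ := Option.ne_none_iff_exists'.1 hn.2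
        rw [trY_new28 hn.1 hw, h1 r.1 (hW r hn.1 hn.2)]
        exact adj_nb28 hp hxy (hgv r w hw)
      · rw [trY_not28 hn]
        exact h2.2 r
    · intro l e e' he he' heq
      have hc : ∀ e, T.tc W e → T.col lam l (z j) (trY28 gh gh' x y) e =
          T.col lam l (z j) y e := by
        intro e he
        apply col_eq28
        rintro r rfl hn
        exact hW r hn.1 hn.2 he
      rw [hc e he, hc e' he'] at heq
      exact h4 l e e' he he' heq
    · rw [tkW_eq28 lam hW]
      refine h5.mono_right ?_
      show tkF T lam gh' (trY28 gh gh' x y) x ⊆ tkF T lam gh y x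
      have hlive : ∀ r, gh' r = none → gh r = none := by
        intro r hr
        by_contra hne
        obtain ⟨w, hw⟩ := Option.ne_none_iff_exists'.1 hne
        rw [hgg r w hw] at hr
        exact absurd hr (by simp)
      unfold tkF
      apply Finset.union_subset_union
      · intro t ht
        rw [Finset.mem_image] at ht ⊢
        obtain ⟨s, _, rfl⟩ := ht
        rcases s with i | r
        · exact ⟨.inl i, Finset.mem_univ _, rfl⟩
        · by_cases hn : gh r = none ∧ gh' r ≠ none
          · obtain ⟨w, hw⟩ := Option.ne_none_iff_exists'.1 hn.2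
            refine ⟨.inl w, Finset.mem_univ _, ?_⟩
            show Sum.inl (x w) = Sum.inl (trY28 gh gh' x y r)
            rw [trY_new28 hn.1 hw]
          · refine ⟨.inr r, Finset.mem_univ _, ?_⟩
            show Sum.inl (y r) = Sum.inl (trY28 gh gh' x y r)
            rw [trY_not28 hn]
      · intro t ht
        rw [Finset.mem_image] at ht ⊢
        obtain ⟨p, hpf, rfl⟩ := ht
        rw [Finset.mem_filter] at hpf
        have hl : lve T gh p.2 := by
          have h0 := hpf.2
          rcases p with ⟨l, e | r⟩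
          · trivial
          · exact hlive r h0
        refine ⟨p, ?_, ?_⟩
        · rw [Finset.mem_filter]
          exact ⟨Finset.mem_univ _, hl⟩
        · rw [col_eq28]
          rintro r hr hn
          have h0 := hpf.2
          rw [hr] at h0
          exact hn.2 h0
  · intro j j' hjj
    rw [tkW_eq28 lam hW, tkW_eq28 lam hW]
    exact hd j j' hjj

theorem TRF : TRF_stmt := by
  intro I _ T s P V K _ A lam gh gh' W d κ η hp hd hκ hη hlo hhi hgv hGI hgg hW hmain
  refine ⟨hGI, ?_⟩
  set Φ : (I → V) × (T.R → V) → (I → V) × (T.R → V) := fun f => (f.1, trY28 gh gh' f.1 f.2)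
    with hΦ
  set N : Finset T.R := Finset.univ.filter (fun r => gh r = none ∧ gh' r ≠ none) with hN
  set k : ℕ := N.card with hk
  set G : Finset ((I → V) × (T.R → V)) :=
    (Hm T A gh).filter fun f => Nice T lam gh f.1 f.2 ∧ Rich T A lam gh W P f.1 f.2 with hG
  set G' : Finset ((I → V) × (T.R → V)) :=
    (Hm T A gh').filter fun f => Nice T lam gh' f.1 f.2 ∧ Rich T A lam gh' W P f.1 f.2 with hG'
  have hd0 : 0 < d := by linarith
  have hκ0 : 0 < κ := by linarith
  -- fibre bounds
  have hprod : ∀ c : ℝ, ∏ r : T.R, (if gh r = none ∧ gh' r ≠ none then c else 1) = c ^ k := by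
    intro c
    rw [Finset.prod_ite, Finset.prod_const, Finset.prod_const_one, mul_one]
  have hlow : ∀ g ∈ Hm T A gh', d ^ k ≤ (((Hm T A gh).filter fun f => Φ f = g).card : ℝ) := by
    intro g hg
    rw [hΦ, fibre28 hgg hg, ← hprod]
    push_cast
    apply Finset.prod_le_prod
    · intro r _
      split_ifs <;> linarith
    · intro r _
      split_ifs
      · exact hlo _
      · exact le_refl _
  have hupp : ∀ g ∈ Hm T A gh', (((Hm T A gh).filter fun f => Φ f = g).card : ℝ) ≤
      (κ * d) ^ k := by
    intro g hg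
    rw [hΦ, fibre28 hgg hg, ← hprod]
    push_cast
    apply Finset.prod_le_prod
    · intro r _
      split_ifs
      · exact Nat.cast_nonneg _
      · linarith
    · intro r _
      split_ifs
      · exact hhi _
      · exact le_refl _
  have hmaps : ∀ f ∈ Hm T A gh, Φ f ∈ Hm T A gh' := fun f hf => Hm_map28 hp hGI.gv hgg hf
  have hmapsG : ∀ f ∈ G, Φ f ∈ G' := by
    intro f hf
    rw [hG, Finset.mem_filter] at hf
    rw [hG', Finset.mem_filter]
    have hh : T.hom A f.1 f.2 := by
      have := hf.1
      unfold Hm at this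
      rw [Finset.mem_filter] at this
      exact this.2.1
    exact ⟨hmaps f hf.1, Nice28 hgg hf.2.1, Rich28 hp hGI.gv hgg hW hh hf.2.2⟩
  -- number of homomorphisms
  have h1 : (Hm T A gh').card * d ^ k ≤ ((Hm T A gh).card : ℝ) := by
    rw [Finset.card_eq_sum_card_fiberwise hmaps]
    push_cast
    rw [← nsmul_eq_mul, ← Finset.sum_const]
    exact Finset.sum_le_sum hlow
  have h2 : (G.card : ℝ) ≤ G'.card * (κ * d) ^ k := by
    rw [Finset.card_eq_sum_card_fiberwise hmapsG]
    push_cast
    rw [← nsmul_eq_mul, ← Finset.sum_const]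
    apply Finset.sum_le_sum
    intro g hg
    refine le_trans ?_ (hupp g (Finset.mem_filter.1 hg).1)
    norm_cast
    apply Finset.card_le_card
    apply Finset.filter_subset_filter
    exact Finset.filter_subset _ _
  have hkT : k ≤ Fintype.card T.R := by
    rw [hk]
    exact Finset.card_le_univ _
  have hdk : 0 < d ^ k := pow_pos hd0 k
  have hκk : 0 < κ ^ k := pow_pos hκ0 k
  have h3 : η * ((Hm T A gh').card * d ^ k) ≤ G'.card * (κ * d) ^ k :=
    le_trans (mul_le_mul_of_nonneg_left h1 hη.le) (le_trans hmain h2)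
  have h4 : η * (Hm T A gh').card ≤ G'.card * κ ^ k := by
    rw [mul_pow] at h3
    have h5 : (η * (Hm T A gh').card) * d ^ k ≤ (G'.card * κ ^ k) * d ^ k := by
      calc (η * (Hm T A gh').card) * d ^ k = η * ((Hm T A gh').card * d ^ k) := by ring
        _ ≤ G'.card * (κ ^ k * d ^ k) := h3
        _ = (G'.card * κ ^ k) * d ^ k := by ring
    exact le_of_mul_le_mul_right h5 hdk
  have h6 : κ ^ k ≤ κ ^ Fintype.card T.R := pow_le_pow_right₀ hκ hkT
  have h7 : η / κ ^ Fintype.card T.R ≤ η / κ ^ k := by
    apply div_le_div_of_nonneg_left hη.le hκk h6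
  calc η / κ ^ Fintype.card T.R * (Hm T A gh').card ≤ η / κ ^ k * (Hm T A gh').card := by
        gcongr
    _ = (η * (Hm T A gh').card) / κ ^ k := by ring
    _ ≤ G'.card := by
        rw [div_le_iff₀ hκk]
        exact h4

end

end Pool.Agent.helper28.IV
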